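import Pool.Agent.W2helper34.AD.Main

/-!
# Betti numbers above the middle dimension: right-angled groups of Artin type

Let `L` be a finite graph. The octahedralization `Oct L` is obtained by replacing every vertex by two non-adjacent
vertices; the right-angled Coxeter group of `Oct L` is commensurable with the right-angled Artin group of `L`. More
generally we consider the finite graphs `G` in which every vertex `v` has a twin, that is another vertex with the
same neighbours; the groups `W G` are the graph products of free products of at least two groups of order two.

Suppose that the flag complex of `G` is embedded in the sphere of dimension `n - 1`. If the embedding is piecewise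
linear then the Davis complex of `W G` thickens to a contractible `n`-manifold with boundary on which `W G` acts
properly and cocompactly, and the torsion-free subgroups of finite index of `W G` are the fundamental groups of compact
aspherical `n`-manifolds with boundary.

The class `Od` contains the graphs with twins, the bipartite graphs and the suspensions; it is closed under joins and
under certain additions of vertices and amalgamations. The class `Ev`, used for even `n`, is obtained from `Od` by
adding vertices with links in `Od` (and by certain amalgamations).

Main new ingredient: a cycle of dimension `i` of the flag complex of `L` (of any dimension) which is not a boundary,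
together with a dual cocycle, gives an explicit symmetric cycle on the deleted join of `Oct L` on which the van Kampen
obstruction in degree `2 i` does not vanish (`Pool.Agent.W2helper34.AD.main_pair`). So if the flag complex of `Oct L`
is embedded in the sphere of dimension `n - 1` then the reduced homology of the flag complex of `L` over the field with
two elements vanishes in all the degrees `i - 1` with `i > n / 2` (`Pool.Agent.W2helper34.AD.dual_step`).
-/

set_option autoImplicit false

namespace Pool.Agent.Results.MP_8fe54c_gt.GraphsWithTwins

open Pool.Agent.W907.SG Pool.Agent.Y132.SI Pool.Agent.W2helper34.AD

/-- Let the flag complex of the finite graph `G` be embedded in a sphere of dimension `n - 1`, and let `G` be in the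
class `Od` (for example, let every vertex of `G` have a twin), or let `n` be even and `G` in the class `Ev`.
(1) There are no nonzero `ℓ²` harmonic `i`-chains on the Davis complex of the right-angled Coxeter group `W G` for
`i > n / 2`. (2) For each `ε > 0` there is a finite set `E` of nontrivial elements of `W G` such that for every
subgroup `H` of finite index which contains no conjugate of an element of `E`, and for all `i > n / 2`, the `i`-th
real Betti number of `H` (the dimension of the space of the `H`-invariant real harmonic `i`-chains of the Davis
complex) is at most `ε [W G : H]`. -/
theorem result : ∀ (n : ℕ) (V : Type) [Fintype V] [LinearOrder V] (G : SimpleGraph V),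
    (Od G ∨ (Even n ∧ Ev G)) → EmbS n G →
    (∀ i : ℕ, n < 2 * i → L2Van G i) ∧
    ∀ ε : ℝ, 0 < ε → ∃ E : Finset (W G), (1 : W G) ∉ E ∧ ∀ H : Subgroup (W G), H.FiniteIndex →
      (∀ g ∈ E, ∀ x : W G, x * g * x⁻¹ ∉ H) → ∀ i : ℕ, n < 2 * i →
        (Module.finrank ℝ (HInv G H i) : ℝ) ≤ ε * H.index := by
  intro n V _ _ G h hE
  exact ⟨fun i hi => above h hE i hi,
    fun ε hε => Pool.Agent.R781.VS.growth_of_above G n (fun i hi => above h hE i hi) ε hε⟩

end Pool.Agent.Results.MP_8fe54c_gt.GraphsWithTwins
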