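import Pool.Agent.W2helper34.PA.Main

/-!
# Betti numbers above the middle dimension: all manifolds with fundamental groups of right-angled Artin type

Let `M` be a contractible manifold of dimension `n` (compact or not, with or without boundary) on which a group `Γ`
acts properly discontinuously by homeomorphisms, for example the universal cover of a compact aspherical
`n`-manifold with boundary with the group `Γ` of the deck transformations. Suppose that `Γ` is commensurable with, or
only contains a subgroup of finite index of, one of the following groups:

* the right-angled Artin group of any finite graph `L` (here `G` is the octahedralization of `L`: every vertex is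
  replaced by two non-adjacent vertices; the universal cover of the Salvetti complex of the Artin group of `L` is
  isomorphic, as a cube complex, to the Davis complex of `W G`);
* the right-angled Coxeter group `W G` of a finite graph `G` in which the neighbourhood of every vertex is contained
  in the neighbourhood of another vertex.

We prove that the `ℓ²`-homology of this cube complex vanishes in all the degrees above `n / 2`. If `Γ` is
commensurable with `W G` (or with the Artin group) then this means that the `ℓ²`-Betti numbers of `Γ` vanish above
the degree `n / 2`. So no compact aspherical manifold with such a fundamental group is a counterexample.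

The hypothesis on `M`: it is contractible and it has a continuous injective map to a smooth Hausdorff `n`-manifold
`N`, which is arbitrary (the action is not assumed to extend to `N`, and it need not be smooth). If `M` is a
contractible smooth manifold with boundary one may take for `N` the union of `M` and an open collar. Every
contractible topological manifold without boundary has a smooth structure (Kirby and Siebenmann, Quinn).

Ingredients of the proof.
* The theorem of `Pool.Agent.W2helper34.AD` (a cycle together with a dual cocycle gives a symmetric cycle of the
  deleted join on which the van Kampen obstruction does not vanish), in all degrees.
* The method of Bestvina, Kapovich and Kleiner in a simple form: Milnor's construction gives a map of the cone over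
  the flag complex of `G` to `M` for which the images of the cones over disjoint simplices diverge
  (`Pool.Agent.W2helper34.PA.hmap`); here the cones over the simplices are orthants in flats.
* The normal bundle of an immersion of `M` is trivial over compact sets (`exists_frame`), and so the join of the flag
  complex with a join of `r` triples of points is mapped to `ℝ^(n + 2 r)` such that the deleted join has an odd map
  to the sphere of dimension `n + 2 r - 1` (`odd_of_action`, `stab_of_smooth`).
-/

set_option autoImplicit false

namespace Pool.Agent.Results.MP_8fe54c_gt.ProperActions

open Pool.Agent.W907.SG Pool.Agent.Y132.SI Pool.Agent.W2helper34.PA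
open scoped Manifold ContDiff

/-- Let `G` be a finite graph and let `Γ` be a group which contains a subgroup of finite index of the right-angled
Coxeter group `W G`, where the neighbourhood of every vertex of `G` is contained in the neighbourhood of another
vertex, or a subgroup of finite index of the right-angled Artin group of `L`, where `G` is the octahedralization of
`L` (`Big G Γ`). Let `Γ` act properly discontinuously by homeomorphisms on a contractible space `M` which has a
continuous injective map to a smooth Hausdorff manifold `N` of dimension `n`.
(1) There are no nonzero `ℓ²` harmonic `i`-chains on the Davis complex of `W G` for `i > n / 2`. (2) For each `ε > 0`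
there is a finite set `E` of nontrivial elements of `W G` such that for every subgroup `H` of finite index which
contains no conjugate of an element of `E`, and for all `i > n / 2`, the `i`-th real Betti number of `H` (the
dimension of the space of the `H`-invariant real harmonic `i`-chains of the Davis complex) is at most
`ε [W G : H]`. -/
theorem result : ∀ (n : ℕ) (V : Type) [Fintype V] [LinearOrder V] (G : SimpleGraph V) (Γ : Type) [Group Γ],
    Big G Γ →
    ∀ (M : Type) [TopologicalSpace M] [ContractibleSpace M] [MulAction Γ M] [ContinuousConstSMul Γ M]
      [ProperlyDiscontinuousSMul Γ M]
      (N : Type) [TopologicalSpace N] [T2Space N] [ChartedSpace (EuclideanSpace ℝ (Fin n)) N]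
      [IsManifold (𝓡 n) ∞ N] (f : M → N), Continuous f → Function.Injective f →
    (∀ i : ℕ, n < 2 * i → L2Van G i) ∧
    ∀ ε : ℝ, 0 < ε → ∃ E : Finset (W G), (1 : W G) ∉ E ∧ ∀ H : Subgroup (W G), H.FiniteIndex →
      (∀ g ∈ E, ∀ x : W G, x * g * x⁻¹ ∉ H) → ∀ i : ℕ, n < 2 * i →
        (Module.finrank ℝ (HInv G H i) : ℝ) ≤ ε * H.index := by
  intro n V _ _ G Γ _ hG M _ _ _ _ _ N _ _ _ _ f hf hfi
  have h : ∀ i : ℕ, n < 2 * i → L2Van G i := fun i hi => above_big hG hf hfi i hi
  exact ⟨h, fun ε hε => Pool.Agent.R781.VS.growth_of_above G n h ε hε⟩

end Pool.Agent.Results.MP_8fe54c_gt.ProperActions
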